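import Pool.Agent.Helper69_SER.Stmts
import Pool.Agent.Helper69_SER.Basic

/-! # Squad SER: CYC, K, ZP -/

set_option autoImplicit false

namespace SER.H75

open SER Function

theorem cyc : CycStmt := by
  intro J _ next r j₀ hne htr hr
  -- the iterates of next are not injective
  have hni : ¬ Injective (fun n : ℕ => next^[n] j₀) := not_injective_infinite_finite _
  have hchain : ∀ (n : ℕ) (a : J), r a (next^[n + 1] a) := by
    intro n
    induction n with
    | zero => intro a; exact hr a
    | succ n ih =>
      intro a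
      have h1 := ih (next a)
      rw [← iterate_succ_apply] at h1
      exact htr _ _ _ (hr a) h1
  rw [Injective] at hni
  push Not at hni
  obtain ⟨p, q, hpq, hne'⟩ := hni
  wlog hlt : p < q generalizing p q
  · exact this q p hpq.symm hne'.symm (by omega)
  obtain ⟨d, rfl⟩ := Nat.exists_eq_add_of_lt hlt
  set a := next^[p] j₀ with ha
  have h1 : next^[d + 1] a = a := by
    have : next^[p + d + 1] j₀ = next^[d + 1] a := by
      rw [ha, ← iterate_add_apply]
      congr 1
      omega
    rw [← this]
    exact hpq.symm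
  rcases d with _ | d
  · exact absurd h1 (hne a)
  refine ⟨a, ?_⟩
  have h2 := hchain d (next a)
  rw [← iterate_succ_apply, h1] at h2
  exact h2

theorem single_of_HI {R : Type} [Ring R] {N : Type} [AddCommGroup N] [Module R N]
    {X : Type} [AddCommGroup X] [Module R X] (hX : Uni R X) {f : X →ₗ[R] X}
    (hf : f ∈ HI R N X X) (hinj : Injective f) :
    ∃ (α : X →ₗ[R] N) (β : N →ₗ[R] X), Injective (β ∘ₗ α) := by
  revert hinj
  induction hf using AddSubgroup.closure_induction with
  | mem f hf =>
    intro hinj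
    obtain ⟨α, β, rfl⟩ := hf
    exact ⟨α, β, hinj⟩
  | zero =>
    intro hinj
    exfalso
    haveI := hX.1
    obtain ⟨x, hx⟩ := exists_ne (0 : X)
    exact hx (hinj (by simp))
  | add f g _ _ h1 h2 =>
    intro hinj
    rcases inj_or_of_add hX.2 hinj with h | h
    · exact h1 h
    · exact h2 h
  | neg f _ h1 =>
    intro hinj
    apply h1
    intro x y hxy
    apply hinj
    simp [hxy]

theorem k (elimn : ElimNStmt) : KStmt := by
  intro R _ N _ _ hN hnt ι U hU loc
  by_contra hcon
  push Not at hcon
  have hZ : ∀ i, ¬ ZT R N (U i) := by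
    rintro i ⟨f, hf, hinj⟩
    obtain ⟨α, β, h⟩ := single_of_HI (hU i) hf hinj
    exact hcon i α β h
  obtain ⟨n, hn⟩ := exists_ne (0 : N)
  refine elimn R N hN ι U hU loc (fun Y y => y ≠ 0) ⟨fun Y h => h rfl, ?_, ?_⟩ ?_
    (ModuleCat.of R N) LinearMap.id n hn
  · intro Y x y h
    by_contra h2
    push Not at h2
    exact h (by rw [h2.1, h2.2, add_zero])
  · intro Y Z g x h h2
    exact h (by rw [h2, map_zero])
  · intro i hi
    exact absurd hi (hZ i)

theorem zp (key : KeyStmt) : ZpStmt := by
  intro R _ N _ _ hN ι U hU loc V _ _ W _ _ hV hG β g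
  by_contra hne
  apply hG
  intro S hS hSW
  obtain ⟨n, hn⟩ : ∃ n, g (β n) ≠ 0 := by
    by_contra h
    push Not at h
    exact hne (LinearMap.ext h)
  have hker : LinearMap.ker g ≤ Submodule.span R {β n} := by
    rcases hV.2 (LinearMap.ker g) (Submodule.span R {β n}) with h | h
    · exact h
    · exfalso
      exact hn (h (Submodule.mem_span_singleton_self _))
  refine key R N hN ι U hU loc V hV β n S hS ?_
  refine hS.sq (ModuleCat.of R (V ⧸ Submodule.span R {β n})) (ModuleCat.of R W) hSW ?_
  refine ⟨LinearMap.range g,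
    (Submodule.factor hker) ∘ₗ (LinearMap.quotKerEquivRange g).symm.toLinearMap, ?_⟩
  intro y
  obtain ⟨v, rfl⟩ := Submodule.mkQ_surjective _ y
  refine ⟨LinearMap.quotKerEquivRange g (Submodule.Quotient.mk v), ?_⟩
  simp only [LinearMap.comp_apply, LinearEquiv.coe_coe, LinearEquiv.symm_apply_apply]
  rfl

end SER.H75
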